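import Mathlib
import Pool.Agent.Clq.Final

/-!
# The clique function needs `2 log n - O(log log n)` NOT gates

Circuits of quasipolynomial size for the clique function, with the optimal number of NOT gates up to
`O(log log n)`. Alice knows the input and has only monotone circuits, Bob is computationally unbounded.
-/

set_option autoImplicit false

namespace Pool.Agent.Results.MP_d19090_lc.Clique

open Pool.Agent.FewNeg Pool.Agent.Clq Pool.Agent.TAvg

/-- There is a constant `C` such that, for `A = log (n + s + e) + 1` and `C * A ^ 3 ≤ K`:
if `C * ((P - 1) * e + 1 + |S|) * A ^ 16 < (n - K) ^ 2` then there is a probability distribution on the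
graphs with `n` vertices on which every game in which Alice has monotone circuits with `s` gates and
Bob knows the edges in `S` is right about the existence of a clique with `K` vertices with
probability less than `(1 + 1 / e) / 2`, where `P` is the product of the numbers `T + 1` over the
rounds, `T` being the number of bits which Alice sends in the round; and if
`C * ((2 ^ t - 1) * e + 1) * A ^ 16 < (n - K) ^ 2` then there is a distribution on which this holds for all
circuits with `t` NOT gates and `s` AND and OR gates. For `e = 1` the games and circuits with these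
parameters are wrong for some graph. -/
theorem result : ∃ C : ℕ, ∀ n K s e : ℕ, 1 ≤ e → C * (Nat.log 2 (n + s + e) + 1) ^ 3 ≤ K →
    (∀ (P : ℕ) (S : Finset (Edge n)),
      C * ((P - 1) * e + 1 + S.card) * (Nat.log 2 (n + s + e) + 1) ^ 16 < (n - K) ^ 2 →
        HardDist (DecidesE S s P) (cliqueF n K) e) ∧
    ∀ t : ℕ, C * ((2 ^ t - 1) * e + 1) * (Nat.log 2 (n + s + e) + 1) ^ 16 < (n - K) ^ 2 →
      HardDist (fun g => ∃ d, Computes s d t g) (cliqueF n K) e := by
  obtain ⟨C, hC⟩ := clique_avg
  refine ⟨C, fun n K s e he hK => ⟨fun P S h => hC n K e s P S he hK h, fun t h => ?_⟩⟩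
  obtain ⟨w, h1, h2, h3⟩ := hC n K e s (2 ^ t) ∅ he hK (by
    rw [Finset.card_empty, Nat.add_zero]
    exact h)
  exact ⟨w, h1, h2, fun g ⟨d, hd⟩ => h3 g (Computes.decidesE hd ∅)⟩

end Pool.Agent.Results.MP_d19090_lc.Clique
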