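import Mathlib
import Pool.Agent.TAvg.AvgLowS
import Pool.Agent.Clq.RandG
import Pool.Agent.FewNeg.TBLang

/-!
# Monotone languages in POLYLOGSPACE need `log n - O(log log n)` NOT gates

The language consists of the words which have a block accepted by Andreev's function (blocks of
polylogarithmic sizes). Small circuits for it need `log n - O(log log n)` NOT gates, also on average,
whereas `⌈log₂ (n + 1)⌉` NOT gates are enough for every language in P (Markov, Fischer). The same holds
for games: Alice knows the input and has only monotone circuits, Bob is computationally unbounded.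
With `n` bits in one round, or with `⌈log₂ (n + 1)⌉` rounds of one bit, the games are no restriction.
-/

set_option autoImplicit false

namespace Pool.Agent.Results.MP_d19090_lc.CompressionSize

open Pool.Agent.FewNeg Pool.Agent.CGame Pool.Agent.Clq Pool.Agent.TAvg

/-- For every `c` there are a language in POLYLOGSPACE, with monotone slices, and a constant `C` such
that for `s, e ≤ 2 ^ (log n) ^ c`, `1 ≤ e`: if
`C * (log log n + 1) * ((2 ^ t - 1) * e + 1) * (log (s + 2 ^ t + e) + 1) ^ 8 < n` then there is a
probability distribution on the words of length `n` on which every circuit with `t` NOT gates and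
`s` AND and OR gates is right about the language with probability less than `(1 + 1 / e) / 2`; and if
`C * (log log n + 1) * ((P - 1) * e + 1 + |S|) * (log (s + P + e) + 1) ^ 8 < n` then there is a
distribution on which this holds for every game in which Alice has monotone circuits with `s` gates
and Bob knows the variables in `S`. Here `P` is the product of the numbers `T + 1` over the rounds,
`T` being the number of bits which Alice sends in the round. For `e = 1` this says that no such
circuit and no such game decides the words of length `n`. -/
theorem result (c : ℕ) : ∃ L : Set (List Bool), Pool.Agent.BookPL.InPL Bool L ∧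
    (∀ n : ℕ, Monotone (slice L n)) ∧
    ∃ C : ℕ, ∀ n s e : ℕ, 1 ≤ e → s ≤ 2 ^ Nat.log 2 n ^ c → e ≤ 2 ^ Nat.log 2 n ^ c →
      (∀ t : ℕ, C * (Nat.log 2 (Nat.log 2 n) + 1) * ((2 ^ t - 1) * e + 1) *
          (Nat.log 2 (s + 2 ^ t + e) + 1) ^ 8 < n →
          HardDist (fun g => ∃ d, Computes s d t g) (slice L n) e) ∧
      ∀ (P : ℕ) (S : Finset (Fin n)),
        C * (Nat.log 2 (Nat.log 2 n) + 1) * ((P - 1) * e + 1 + S.card) *
          (Nat.log 2 (s + P + e) + 1) ^ 8 < n →
          HardDist (fun g => ∃ d, Decides S s d P g) (slice L n) e := by
  obtain ⟨C, hC⟩ := LTB_avg c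
  refine ⟨LTB (c + 12), inPL_LTB (c + 12), LTB_monotone (c + 12), C,
    fun n s e he hs hee => ⟨fun t h => ?_, fun P S h => hC n e S s P he hs hee h⟩⟩
  obtain ⟨w, h1, h2, h3⟩ := hC n e ∅ s (2 ^ t) he hs hee (by
    rw [Finset.card_empty, Nat.add_zero]
    exact h)
  exact ⟨w, h1, h2, fun g ⟨d, hd⟩ => h3 g (Computes.decidesE hd ∅)⟩

end Pool.Agent.Results.MP_d19090_lc.CompressionSize
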