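import Mathlib
import Pool.Agent.LinPeb.Trade

/-!
# The trade-off between registers and rounds for linear register programs

The evaluation of layered directed acyclic graphs with affine bilinear node maps on a vector space by
linear computations, which contain all pebbling strategies and the methods of Ben-Or and Cleve, Cook
and Mertz, and Williams: for graphs with `N` nodes and `r` registers the optimal number of rounds is
`2 ^ (Θ (N / r))`, up to a factor which is polynomial in `N`.
-/

set_option autoImplicit false

namespace Pool.Agent.Results.MP_d19090_lc.LinearRegisters

open Pool.Agent.LinPeb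

/-- There is a constant `C` such that for all `N, r ≥ 1` there is a layered graph with at most `N`
nodes such that for every field `F` there are a space `E = F ^ m` and affine bilinear maps `E × E → E`
at its nodes such that `N ≤ C * r * (log r + log T + 1)` for every linear computation with `r`
registers and `T` rounds after which the value of the node `(h, o)` is a linear combination of the
registers. Conversely, for every layered graph with at most `N` nodes, every field, every space
`E = F ^ m`, all affine bilinear maps at the nodes and every `r ≥ 3`, the value of every node of the
last layer is computed by a linear computation with `r` registers and `N + 5 ^ (N / r)` rounds. -/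
theorem result : ∃ C : ℕ,
    (∀ N r : ℕ, 1 ≤ N → 1 ≤ r →
      ∃ (h : ℕ) (X : Type) (_ : Fintype X) (p q : ℕ → X → X) (o : X),
        (h + 1) * Fintype.card X ≤ N ∧ ∀ (F : Type) [Field F],
          ∃ (m : ℕ) (f : ℕ → X → NodeMap F (Fin m → F)),
            ∀ (T : ℕ) (R : ℕ → Fin r → (Fin m → F)), IsComputation h f T R →
              value p q f h o ∈ Submodule.span F (Set.range (R T)) →
                N ≤ C * r * (Nat.log 2 r + Nat.log 2 T + 1)) ∧
    ∀ (h N r : ℕ) (X : Type) [Fintype X] (p q : ℕ → X → X),
      (h + 1) * Fintype.card X ≤ N → 3 ≤ r →
        ∀ (F : Type) [Field F] (m : ℕ) (f : ℕ → X → NodeMap F (Fin m → F)) (x : X),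
          ∃ R : ℕ → Fin r → (Fin m → F), IsComputation h f (N + 5 ^ (N / r)) R ∧
            ∃ i, R (N + 5 ^ (N / r)) i = value p q f h x :=
  ⟨165376, fun N r hN hr => trade_off_lower N r hN hr,
    fun _ _ _ _ _ p q hN hr _ _ _ f x => upper_bound p q f hN hr x⟩

end Pool.Agent.Results.MP_d19090_lc.LinearRegisters
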