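import Mathlib
import Pool.Agent.TAvg.AvgLow
import Pool.Agent.TAvg.AvgUp
import Pool.Agent.TOpt.CircL
import Pool.Agent.TOpt.InPC

/-!
# The trade-off between the number of NOT gates (the length of the messages) and the depth

For some language in P with monotone slices the number of the NOT gates and the depth of circuits are
bounded from below, even on average and for much more general devices: Alice knows the input and has
only monotone span programs, Bob is computationally unbounded. Up to factors which are polynomial in
`log n`, the bound is attained by circuits for every language in POLYLOGSPACE with monotone slices.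
So any larger lower bound for some language in P separates P from POLYLOGSPACE.
-/

set_option autoImplicit false

namespace Pool.Agent.Results.MP_d19090_lc.TradeOff

open Pool.Agent.FewNeg Pool.Agent.CGame Pool.Agent.TOpt Pool.Agent.TAvg

/-- There are a language `L` in P, with monotone slices, and a constant `C` such that for all `n` and
`1 ≤ e`: if `C * (log n + log e + 1) ^ C * ((P - 1) * e + 1 + |S|) * (log s + 1) < n` then there is a
probability distribution on the words of length `n` on which every game, in which Alice has monotone
span programs with `s` rows over the field `𝔽` and Bob knows the variables in `S`, is right about `L`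
with probability less than `(1 + 1 / e) / 2`, where `P` is the product of the numbers `T + 1` over the
rounds, `T` being the number of bits which Alice sends in the round; and if
`C * (log n + log e + 1) ^ C * ((2 ^ t - 1) * e + 1) * (d + 1) < n` then there is a distribution on
which this holds for all circuits of depth `d` with `t` NOT gates. Conversely, for every language in
POLYLOGSPACE with monotone slices there is a constant `C` such that for `n < ((2 ^ t - 1) * e + 1) * m`
and every distribution some circuit with `t` NOT gates and depth `m * (log n + 2) ^ C` is right with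
probability at least `(1 + 1 / e) / 2`. For `e = 1` this is the exact (worst) case. -/
theorem result :
    (∃ L : Set (List Bool), Pool.Agent.Book19.InP Bool L ∧ (∀ n : ℕ, Monotone (slice L n)) ∧
      ∃ C : ℕ, ∀ n e : ℕ, 1 ≤ e →
        (∀ (𝔽 : Type) [Field 𝔽] (S : Finset (Fin n)) (s P : ℕ),
          C * (Nat.log 2 n + Nat.log 2 e + 1) ^ C * ((P - 1) * e + 1 + S.card) *
            (Nat.log 2 s + 1) < n → HardDist (GDecides (HasSP 𝔽 s) S P) (slice L n) e) ∧
        ∀ d t : ℕ, C * (Nat.log 2 n + Nat.log 2 e + 1) ^ C * ((2 ^ t - 1) * e + 1) * (d + 1) < n →
          HardDist (fun g => ∃ s, Computes s d t g) (slice L n) e) ∧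
    ∀ L : Set (List Bool), Pool.Agent.BookPL.InPL Bool L → (∀ n : ℕ, Monotone (slice L n)) →
      ∃ C : ℕ, ∀ n m t e : ℕ, 1 ≤ e → n < ((2 ^ t - 1) * e + 1) * m →
        ¬ HardDist (fun g => ∃ s, Computes s (m * (Nat.log 2 n + 2) ^ C) t g) (slice L n) e := by
  obtain ⟨C, hC⟩ := LTC_avg
  refine ⟨⟨LTC, inP_LTC, LTC_monotone, C, fun n e he => ⟨fun 𝔽 _ S s P h => hC 𝔽 n e S s P he h,
    fun d t h => ?_⟩⟩, fun L hL hm => avg_upper hL hm⟩
  obtain ⟨w, h1, h2, h3⟩ := hC ℚ n e ∅ (2 ^ d) (2 ^ t) he (by
    rw [Finset.card_empty, Nat.add_zero, Nat.log_pow (by norm_num)]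
    exact h)
  exact ⟨w, h1, h2, fun g ⟨s, hs⟩ => h3 g (Computes.gdecides ℚ hs ∅)⟩

end Pool.Agent.Results.MP_d19090_lc.TradeOff
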